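import Pool.Agent.Lib.DN.Iface
import Pool.Agent.Lib.DI.V.All
import Pool.Agent.Lib.DI.Val

/-!
# Theorem DN, part V: symbols which are constant on `ℤ[1/2]` (author helper97)

`thmV`: an equivalence relation `E` on the rational numbers (`E r s`: the symbol has the same value at `r` and `s`) with
`E y 0` and `E (g y) (g 0)` for all `y ∈ ℤ[1/2]`, `g ∈ Γ₀(M)`, satisfies `E (b/d) 0` for all `g ∈ Γ₁(M)`.
Proof: a matrix over `ℤ[1/2]` with lower left entry in `M ℤ[1/2]` acts on `ℤ[1/2]` as an integral one followed by an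
affine map (`DI.V.S_Dec`), so `E (k y) (k 0)` for all such `k`; induction on the orbit `E0 M`; the orbit contains all `b/d`
(`DI.V.star`).
-/

set_option autoImplicit false

noncomputable section

namespace Pool.Agent.DN

open Pool.Agent.MuZ Pool.Agent.FW NumberField
open Pool.Agent.DI (io ofC VP MP UP TP)
open DI.V (A2 QM E0)

/-- The relation on `ℤ[1/2]`, transformed by the matrices over `ℤ[1/2]`. -/
theorem thmV_A2 {M : ℕ} (ho : Odd M) {E : ℚ → ℚ → Prop} (hE : Equivalence E)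
    (hg : ∀ a b c d : ℤ, a * d - b * c = 1 → (M : ℤ) ∣ c → ∀ y : ℚ, A2 y →
      E ((a * y + b) / (c * y + d)) (b / d))
    {a b z d : ℚ} (ha : A2 a) (hb : A2 b) (hz : A2 z) (hd : A2 d) (h : a * d - b * (M * z) = 1)
    {y : ℚ} (hy : A2 y) : E ((a * y + b) / (M * z * y + d)) (b / d) := by
  obtain ⟨a0, b0, c0, d0, hdet, hM, H⟩ := DI.V.tDec M ho a b z d ha hb hz hd h
  obtain ⟨y', hy', e⟩ := H y hy
  obtain ⟨y0, hy0, e0⟩ := H 0 A2.zero
  have e1 : b / d = (a * 0 + b) / (M * z * 0 + d) := by simp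
  rw [e1, e, e0]
  exact hE.trans (hg a0 b0 c0 d0 hdet hM y' hy') (hE.symm (hg a0 b0 c0 d0 hdet hM y0 hy0))

/-- The orbit. -/
theorem thmV_E0 {M : ℕ} (ho : Odd M) (h3 : 3 ≤ M) {E : ℚ → ℚ → Prop} (hE : Equivalence E)
    (hg : ∀ a b c d : ℤ, a * d - b * c = 1 → (M : ℤ) ∣ c → ∀ y : ℚ, A2 y →
      E ((a * y + b) / (c * y + d)) (b / d))
    {r : ℚ} (hr : E0 M r) : ∀ a b z d : ℚ, A2 a → A2 b → A2 z → A2 d → a * d - b * (M * z) = 1 →
      E ((a * r + b) / (M * z * r + d)) (b / d) := by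
  have hM : 2 ≤ M := le_trans (by norm_num) h3
  induction hr with
  | zero =>
    intro a b z d _ _ _ _ _
    rw [mul_zero, mul_zero, zero_add, zero_add]
    exact hE.refl _
  | @up r y hy hr ih =>
    intro a b z d ha hb hz hd hdet
    have hMz : A2 (M * z) := (A2.nat M).mul hz
    have e1 : (a * (r + y) + b) / (M * z * (r + y) + d) =
        (a * r + (a * y + b)) / (M * z * r + (M * z * y + d)) := by
      congr 1 <;> ring
    rw [e1]
    exact hE.trans (ih a (a * y + b) z (M * z * y + d) ha ((ha.mul hy).add hb) hz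
      ((hMz.mul hy).add hd) (by linear_combination hdet)) (thmV_A2 ho hE hg ha hb hz hd hdet hy)
  | @lo r w hw hr ih =>
    intro a b z d ha hb hz hd hdet
    have hden : M * w * r + 1 ≠ 0 := hr.den hM ho hw
    have e1 : (a * (r / (M * w * r + 1)) + b) / (M * z * (r / (M * w * r + 1)) + d) =
        ((a + b * (M * w)) * r + b) / (M * (z + d * w) * r + d) := by
      have e2 : a * (r / (M * w * r + 1)) + b =
          ((a + b * (M * w)) * r + b) / (M * w * r + 1) := by
        rw [eq_div_iff hden, add_mul, mul_assoc a, div_mul_cancel₀ _ hden]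
        ring
      have e3 : M * z * (r / (M * w * r + 1)) + d =
          (M * (z + d * w) * r + d) / (M * w * r + 1) := by
        rw [eq_div_iff hden, add_mul, mul_assoc (M * z), div_mul_cancel₀ _ hden]
        ring
      rw [e2, e3, div_div_div_cancel_right₀ hden]
    rw [e1]
    exact ih (a + b * (M * w)) b (z + d * w) d
      (ha.add (hb.mul ((A2.nat M).mul hw))) hb (hz.add (hd.mul hw)) hd
      (by linear_combination hdet)

/-- **Theorem V for symbols which are constant on `ℤ[1/2]`.** -/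
theorem thmV {M : ℕ} (ho : Odd M) (h3 : 3 ≤ M) {E : ℚ → ℚ → Prop} (hE : Equivalence E)
    (hg : ∀ a b c d : ℤ, a * d - b * c = 1 → (M : ℤ) ∣ c → ∀ y : ℚ, A2 y →
      E ((a * y + b) / (c * y + d)) (b / d))
    {a b c d : ℤ} (hG : G0 M a b c d) (hd : (M : ℤ) ∣ d - 1) : E (b / d) 0 := by
  have hbd : IsCoprime b d := ⟨-c, a, by linarith [hG.1]⟩
  have h1 := thmV_E0 ho h3 hE hg (DI.V.star M ho h3 b d hbd hd) 1 0 0 1 A2.one A2.zero A2.zero
    A2.one (by ring)
  have e1 : ((1 : ℚ) * (b / d) + 0) / (M * 0 * (b / d) + 1) = b / d := by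
    rw [mul_zero, zero_mul, zero_add, div_one, one_mul, add_zero]
  rwa [e1, zero_div] at h1

/-- Denominators. -/
theorem thmV_den {M : ℕ} (ho : Odd M) {y : ℚ} (hy : A2 y) : y.den.Coprime M := by
  obtain ⟨c, j, rfl⟩ := hy
  have h1 : (((c : ℚ) / 2 ^ j).den : ℤ) ∣ ((2 ^ j : ℤ)) := by
    have e : ((c : ℚ) / 2 ^ j) = Rat.divInt c (2 ^ j) := by
      rw [Rat.divInt_eq_div]
      push_cast
      rfl
    rw [e]
    exact Rat.den_dvd c (2 ^ j)
  have h2 : ((c : ℚ) / 2 ^ j).den ∣ 2 ^ j := by exact_mod_cast h1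
  exact Nat.Coprime.coprime_dvd_left h2 (Nat.Coprime.pow_left j (Nat.coprime_two_left.2 ho))

/-- **Theorem V, symbols modulo `P`.** The symbol `x` is constant modulo `P` on `ℤ[1/2]` and transforms under
`Γ₀(M)` with arbitrary integral factors: it is constant modulo `P` on the `Γ₁(M)`-orbit of `0`. -/
theorem thmV_mod {P : Ideal ZZ} [P.IsPrime] {M : ℕ} (ho : Odd M) (h3 : 3 ≤ M) {x : ℚ → Om}
    (hA : ∀ (c : ℤ) (j : ℕ), MP P (x (c / 2 ^ j) - x 0))
    (hG : ∀ a b c d : ℤ, G0 M a b c d → ∃ e : Om, VP P e ∧ ∀ r : ℚ, r.den.Coprime M →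
      MP P (x ((a * r + b) / (c * r + d)) - x (b / d) - e * (x r - x 0)))
    {a b c d : ℤ} (hg : G0 M a b c d) (hd : (M : ℤ) ∣ d - 1) : MP P (x (b / d) - x 0) := by
  have hE : Equivalence fun r s : ℚ => MP P (x r - x s) := by
    refine ⟨fun r => ?_, fun {r s} h => ?_, fun {r s u} h h' => ?_⟩
    · rw [sub_self]
      exact DI.MP.zero
    · have h1 := h.neg
      rwa [neg_sub] at h1
    · have h1 := h.add h'
      rwa [sub_add_sub_cancel] at h1
  refine thmV (E := fun r s => MP P (x r - x s)) ho h3 hE ?_ hg hd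
  intro a b c d h1 h2 y hy
  obtain ⟨e, he, h⟩ := hG a b c d ⟨h1, h2⟩
  have h4 := h y (thmV_den ho hy)
  obtain ⟨u, j, rfl⟩ := hy
  have h5 := h4.add (DI.MP.mul_left he (hA u j))
  rwa [sub_add_cancel] at h5

end Pool.Agent.DN
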