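import Pool.Agent.Lib.DN.IfaceC
import Pool.Agent.Lib.DN.V.V

/-!
# Theorem DN, part V: `S_Vq` (author helper97)
-/

set_option autoImplicit false

noncomputable section

namespace Pool.Agent.DN

open DI.V (A2 QM E0)

/-- **Theorem V for symbols which are constant on `ℤ[1/2]`.** -/
theorem aVq : S_Vq := by
  intro M F _ h ch ho h3 hG hA a b c d hg hd
  refine thmV (E := fun r s => h r = h s) ho h3 ⟨fun r => rfl, fun h1 => h1.symm, fun h1 h2 => h1.trans h2⟩ ?_
    hg hd
  intro a b c d h1 h2 y hy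
  have h4 := hG a b c d ⟨h1, h2⟩ y (thmV_den ho hy)
  obtain ⟨u, j, rfl⟩ := hy
  rw [hA u j] at h4
  exact sub_left_injective h4

end Pool.Agent.DN
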